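import Mathlib
import Pool.Agent.Run7.h520.WO.I

/-!
# MP_b29b59_lc, pieces `RES` and `BF`
-/

set_option autoImplicit false

namespace Run7.h416.WO
open Run7.h520.WO

section
variable {M : Type} [LinearOrder M] {E : M → M → Prop} {d : M → M → M}

lemma pi_inj {R : M → M → Prop} (h : PI E d R) {x x' y y' : M} (h1 : R x x') (h2 : R y y') :
    x = y ↔ x' = y' := by
  have e1 := h.lt _ _ _ _ h1 h2
  have e2 := h.lt _ _ _ _ h2 h1
  constructor
  · rintro rfl
    rcases lt_trichotomy x' y' with h3 | h3 | h3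
    · exact absurd (e1.2 h3) (lt_irrefl _)
    · exact h3
    · exact absurd (e2.2 h3) (lt_irrefl _)
  · rintro rfl
    rcases lt_trichotomy x y with h3 | h3 | h3
    · exact absurd (e1.1 h3) (lt_irrefl _)
    · exact h3
    · exact absurd (e2.1 h3) (lt_irrefl _)

/-- Piece `RES`. -/
theorem res : S_RES := by
  intro M _ E d ax R₀ R h0 hR hs y y' hy
  refine ⟨fun c c' => R c c' ∧ (R₀ c c' ∨ (c = y ∧ c' = y') ∨
    (c < y ∧ ¬ E c y ∧ c' < y' ∧ ¬ E c' y')), ⟨?_, ?_, ?_, ?_⟩, fun x x' h => ⟨hs _ _ h, Or.inl h⟩,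
    ⟨hy, Or.inr (Or.inl ⟨rfl, rfl⟩)⟩, fun c c' h => h.2⟩
  · exact hR.fin.subset fun p hp => hp.1
  · exact fun x x' z z' h1 h2 => hR.lt _ _ _ _ h1.1 h2.1
  · exact fun x x' z z' h1 h2 => hR.eq _ _ _ _ h1.1 h2.1
  · rintro c c' e e' ⟨h1, h1'⟩ ⟨h2, h2'⟩
    refine ⟨hR.dd _ _ _ _ h1 h2, ?_⟩
    by_cases h3 : E c e ∧ c ≠ e
    · have h4 : E c' e' := (hR.eq _ _ _ _ h1 h2).1 h3.1
      have h5 : c' ≠ e' := fun h6 => h3.2 ((pi_inj hR h1 h2).2 h6)
      -- a general remark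
      have gen : ∀ u v w : M, u < v → ¬ E u v → (v = w ∨ (v < w ∧ ¬ E v w)) → u < w ∧ ¬ E u w := by
        intro u v w h6 h7 h8
        rcases h8 with rfl | ⟨h8, h9⟩
        · exact ⟨h6, h7⟩
        · exact ⟨h6.trans h8, fun h10 => h7 (ax.cv _ _ _ h6 h8 h10)⟩
      obtain ⟨a1, a2⟩ := ax.dl c e h3.1 h3.2
      obtain ⟨b1, b2⟩ := ax.dl c' e' h4 h5
      obtain ⟨a3, a4⟩ := ax.dl e c (ax.sm _ _ h3.1) (Ne.symm h3.2)
      obtain ⟨b3, b4⟩ := ax.dl e' c' (ax.sm _ _ h4) (Ne.symm h5)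
      rw [ax.ds e c (ax.sm _ _ h3.1)] at a3 a4
      rw [ax.ds e' c' (ax.sm _ _ h4)] at b3 b4
      rcases h1' with h1' | h1' | h1'
      · rcases h2' with h2' | h2' | h2'
        · exact Or.inl (h0.dd _ _ _ _ h1' h2')
        · right; right
          obtain ⟨g1, g2⟩ := gen _ _ y a3 a4 (Or.inl h2'.1)
          obtain ⟨g3, g4⟩ := gen _ _ y' b3 b4 (Or.inl h2'.2)
          exact ⟨g1, g2, g3, g4⟩
        · right; right
          obtain ⟨g1, g2⟩ := gen _ _ y a3 a4 (Or.inr ⟨h2'.1, h2'.2.1⟩)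
          obtain ⟨g3, g4⟩ := gen _ _ y' b3 b4 (Or.inr h2'.2.2)
          exact ⟨g1, g2, g3, g4⟩
      · right; right
        obtain ⟨g1, g2⟩ := gen _ _ y a1 a2 (Or.inl h1'.1)
        obtain ⟨g3, g4⟩ := gen _ _ y' b1 b2 (Or.inl h1'.2)
        exact ⟨g1, g2, g3, g4⟩
      · right; right
        obtain ⟨g1, g2⟩ := gen _ _ y a1 a2 (Or.inr ⟨h1'.1, h1'.2.1⟩)
        obtain ⟨g3, g4⟩ := gen _ _ y' b1 b2 (Or.inr h1'.2.2)
        exact ⟨g1, g2, g3, g4⟩
    · have h4 : ¬ E c e ∨ c = e := by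
        by_cases h5 : E c e
        · exact Or.inr (by_contra fun h6 => h3 ⟨h5, h6⟩)
        · exact Or.inl h5
      have h5 : ¬ E c' e' ∨ c' = e' := by
        rcases h4 with h4 | h4
        · exact Or.inl fun h6 => h4 ((hR.eq _ _ _ _ h1 h2).2 h6)
        · exact Or.inr ((pi_inj hR h1 h2).1 h4)
      rw [ax.dj _ _ h4, ax.dj _ _ h5]
      exact h1'

/-- Adding one point to a partial isomorphism. -/
lemma add (ax : Ax E d) {R : M → M → Prop} (h : PI E d R) {x x' : M}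
    (k : ∀ c c', R c c' → ((c < x ↔ c' < x') ∧ (x < c ↔ x' < c') ∧ (E c x ↔ E c' x') ∧
      (R (d c x) (d c' x') ∨ (d c x = x ∧ d c' x' = x')) ∧
      (R (d x c) (d x' c') ∨ (d x c = x ∧ d x' c' = x')))) :
    PI E d (fun c c' => R c c' ∨ (c = x ∧ c' = x')) := by
  refine ⟨?_, ?_, ?_, ?_⟩
  · refine (h.fin.union (Set.finite_singleton (x, x'))).subset ?_
    rintro ⟨c, c'⟩ hc
    rcases hc with hc | ⟨rfl, rfl⟩
    · exact Or.inl hc
    · exact Or.inr rfl
  · rintro c c' e e' (h1 | ⟨rfl, rfl⟩) (h2 | ⟨rfl, rfl⟩)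
    · exact h.lt _ _ _ _ h1 h2
    · exact (k _ _ h1).1
    · exact (k _ _ h2).2.1
    · simp
  · rintro c c' e e' (h1 | ⟨rfl, rfl⟩) (h2 | ⟨rfl, rfl⟩)
    · exact h.eq _ _ _ _ h1 h2
    · exact (k _ _ h1).2.2.1
    · have := (k _ _ h2).2.2.1
      exact ⟨fun h3 => ax.sm _ _ (this.1 (ax.sm _ _ h3)), fun h3 => ax.sm _ _ (this.2 (ax.sm _ _ h3))⟩
    · exact ⟨fun _ => ax.rf _, fun _ => ax.rf _⟩
  · rintro c c' e e' (h1 | ⟨rfl, rfl⟩) (h2 | ⟨rfl, rfl⟩)
    · exact Or.inl (h.dd _ _ _ _ h1 h2)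
    · exact (k _ _ h1).2.2.2.1
    · exact (k _ _ h2).2.2.2.2
    · right; exact ⟨ax.dj _ _ (Or.inr rfl), ax.dj _ _ (Or.inr rfl)⟩

/-- Piece `BF`. -/
theorem bf (near : S_NEAR) (ind : S_IND) : S_BF := by
  intro M _ E d ax ext R hR
  classical
  -- the domain
  obtain ⟨A, hA⟩ : ∃ A : Finset M, ∀ c, c ∈ A ↔ ∃ c', R c c' := by
    refine ⟨(hR.fin.image Prod.fst).toFinset, fun c => ?_⟩
    simp
  obtain ⟨B, hB⟩ : ∃ B : Finset M, ∀ c', c' ∈ B ↔ ∃ c, R c c' := by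
    refine ⟨(hR.fin.image Prod.snd).toFinset, fun c => ?_⟩
    simp
  refine ind M E d ax A _ ?_ ?_ ?_
  · intro x hx
    obtain ⟨x', hx'⟩ := (hA x).1 hx
    exact ⟨R, x', hR, fun _ _ h => h, hx'⟩
  · intro x hxA hx
    -- it is enough to find a point in the corresponding cut, in a new class
    suffices hh : ∃ x', ∀ c c', R c c' → ¬ E c' x' ∧ (c < x ↔ c' < x') by
      obtain ⟨x', hx'⟩ := hh
      refine ⟨fun c c' => R c c' ∨ (c = x ∧ c' = x'), x', add ax hR ?_, fun _ _ h => Or.inl h,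
        Or.inr ⟨rfl, rfl⟩⟩
      intro c c' hc
      obtain ⟨h1, h2⟩ := hx' c c' hc
      have h3 : ¬ E c x := hx c ((hA c).2 ⟨c', hc⟩)
      have h4 : c ≠ x := fun h5 => h3 (by rw [h5]; exact ax.rf x)
      have h5 : c' ≠ x' := fun h5 => h1 (by rw [h5]; exact ax.rf x')
      refine ⟨h2, ?_, ?_, ?_, ?_⟩
      · constructor
        · intro h6
          exact lt_of_le_of_ne (not_lt.1 fun h7 => absurd (h2.2 h7) (not_lt.2 h6.le)) (Ne.symm h5)
        · intro h6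
          exact lt_of_le_of_ne (not_lt.1 fun h7 => absurd (h2.1 h7) (not_lt.2 h6.le)) (Ne.symm h4)
      · exact ⟨fun h6 => absurd h6 h3, fun h6 => absurd h6 h1⟩
      · rw [ax.dj _ _ (Or.inl h3), ax.dj _ _ (Or.inl h1)]
        exact Or.inl hc
      · right
        exact ⟨ax.dj _ _ (Or.inl fun h6 => h3 (ax.sm _ _ h6)),
          ax.dj _ _ (Or.inl fun h6 => h1 (ax.sm _ _ h6))⟩
    by_cases h1 : (A.filter (fun c => c < x)).Nonempty
    · -- the largest one
      obtain ⟨a, ha, hmax⟩ : ∃ a ∈ A.filter (fun c => c < x), ∀ c ∈ A.filter (fun c => c < x), c ≤ a :=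
        ⟨_, Finset.max'_mem _ h1, fun c hc => Finset.le_max' _ c hc⟩
      rw [Finset.mem_filter] at ha
      obtain ⟨a', haa⟩ := (hA a).1 ha.1
      obtain ⟨x', h2, h3, h4⟩ := ext.r1 B a'
      refine ⟨x', fun c c' hc => ?_⟩
      have h5 := h4 c' ((hB c').2 ⟨c, hc⟩)
      refine ⟨h5.1, ?_⟩
      constructor
      · intro h6
        have h7 : c ≤ a := hmax c (by rw [Finset.mem_filter]; exact ⟨(hA c).2 ⟨c', hc⟩, h6⟩)
        rcases h7.lt_or_eq with h7 | h7
        · exact ((hR.lt _ _ _ _ hc haa).1 h7).trans h2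
        · rw [← (pi_inj hR hc haa).1 h7] at h2; exact h2
      · intro h6
        by_contra h7
        have h8 : x < c := lt_of_le_of_ne (not_lt.1 h7)
          (fun h9 => hxA (by rw [h9]; exact (hA c).2 ⟨c', hc⟩))
        have h9 : a < c := ha.2.trans h8
        have h10 : ¬ E a c := fun h10 => hx a ha.1 (ax.cv _ _ _ ha.2 h8 h10)
        have h11 := h5.2 ((hR.lt _ _ _ _ haa hc).1 h9) (fun h12 => h10 ((hR.eq _ _ _ _ haa hc).2 h12))
        exact absurd h6 (not_lt.2 h11.le)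
    · by_cases h2 : A.Nonempty
      · obtain ⟨a, ha, hmin⟩ : ∃ a ∈ A, ∀ c ∈ A, a ≤ c :=
          ⟨_, Finset.min'_mem _ h2, fun c hc => Finset.min'_le _ c hc⟩
        obtain ⟨a', haa⟩ := (hA a).1 ha
        obtain ⟨x', h3, _, h4⟩ := ext.l1 B a'
        refine ⟨x', fun c c' hc => ?_⟩
        have h5 := h4 c' ((hB c').2 ⟨c, hc⟩)
        refine ⟨h5.1, ?_⟩
        constructor
        · intro h6
          exact absurd ⟨c, by rw [Finset.mem_filter]; exact ⟨(hA c).2 ⟨c', hc⟩, h6⟩⟩ h1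
        · intro h6
          exfalso
          have h7 : a ≤ c := hmin c ((hA c).2 ⟨c', hc⟩)
          have h8 : a' ≤ c' := by
            rcases h7.lt_or_eq with h7 | h7
            · exact ((hR.lt _ _ _ _ haa hc).1 h7).le
            · exact ((pi_inj hR haa hc).1 h7).le
          exact absurd (h6.trans (h3.trans_le h8)) (lt_irrefl _)
      · refine ⟨x, fun c c' hc => ?_⟩
        exact absurd ⟨c, (hA c).2 ⟨c', hc⟩⟩ h2
  · intro x hxA a₀ ha₀ hE hmn hP
    set y := d a₀ x with hy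
    obtain ⟨R₂, y', hR₂, hs₂, hy₂⟩ := hP
    obtain ⟨R₁, hR₁, hs₁, hyy, hn₁⟩ := res M E d ax R R₂ hR hR₂ hs₂ y y' hy₂
    obtain ⟨B, hB⟩ : ∃ B : Finset M, ∀ c', c' ∈ B ↔ ∃ c, R₁ c c' := by
      refine ⟨(hR₁.fin.image Prod.snd).toFinset, fun c => ?_⟩
      simp
    have hne : a₀ ≠ x := fun h => hxA (by rw [← h]; exact ha₀)
    have hyx : y < x ∧ ¬ E y x := by
      have := ax.dl x a₀ (ax.sm _ _ hE) hne.symm
      rwa [ax.ds x a₀ (ax.sm _ _ hE)] at this
    have cl : ∀ c, E c x → ∀ u, u < x → ¬ E u x → u < c ∧ ¬ E u c := by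
      intro c h1 u h2 h3
      have h4 : ¬ E u c := fun h4 => h3 (ax.tr _ _ _ h4 h1)
      refine ⟨lt_of_le_of_ne (not_lt.1 fun h5 => ?_) (fun h5 => h4 (by rw [h5]; exact ax.rf c)), h4⟩
      exact h4 (ax.sm _ _ (ax.cv _ _ _ h5 h2 h1))
    -- the points of `R₁` in the class of `x` come from `R`
    have old : ∀ c c', R₁ c c' → E c x → R c c' := by
      intro c c' h1 h2
      rcases hn₁ c c' h1 with h3 | h3 | h3
      · exact h3
      · rw [h3.1] at h2; exact absurd h2 hyx.2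
      · exact absurd (ax.cv _ _ _ h3.1 hyx.1 h2) h3.2.1
    have oldA : ∀ c c', R₁ c c' → E c x → c ∈ A := fun c c' h1 h2 => (hA c).2 ⟨c', old c c' h1 h2⟩
    have hmn' : ∀ c c', R₁ c c' → E c x → y ≤ d c x := fun c c' h1 h2 => hmn c (oldA c c' h1 h2) h2
    -- reduction: it is enough to find a point `x'` with the following properties
    suffices hh : ∃ a a' x', R₁ a a' ∧ E a x ∧ a ≠ x ∧ d a x = y ∧ E a' x' ∧ a' ≠ x' ∧ d a' x' = y' ∧
        (a < x ↔ a' < x') ∧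
        (∀ c c', R₁ c c' → E c x → c ≠ a → d c a = y → (c ≠ x ∧ c' ≠ x' ∧ (c < x ↔ c' < x') ∧
          d c' x' = y')) by
      obtain ⟨a, a', x', ra, ea, na, da, ea', na', da', oa, hc⟩ := hh
      refine ⟨fun c c' => R₁ c c' ∨ (c = x ∧ c' = x'), x', add ax hR₁ ?_,
        fun _ _ h => Or.inl (hs₁ _ _ h), Or.inr ⟨rfl, rfl⟩⟩
      -- it is enough to show this
      suffices h9 : ∀ c c', R₁ c c' → c ≠ x ∧ c' ≠ x' ∧ (c < x ↔ c' < x') ∧
          ((E c x ∧ E c' x' ∧ R₁ (d c x) (d c' x')) ∨ (¬ E c x ∧ ¬ E c' x')) by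
        intro c c' h1
        obtain ⟨h2, h3, h4, h5⟩ := h9 c c' h1
        refine ⟨h4, ?_, ?_, ?_, ?_⟩
        · constructor
          · intro h6
            exact lt_of_le_of_ne (not_lt.1 fun h7 => absurd (h4.2 h7) (not_lt.2 h6.le)) (Ne.symm h3)
          · intro h6
            exact lt_of_le_of_ne (not_lt.1 fun h7 => absurd (h4.1 h7) (not_lt.2 h6.le)) (Ne.symm h2)
        · rcases h5 with h5 | h5
          · exact ⟨fun _ => h5.2.1, fun _ => h5.1⟩
          · exact ⟨fun h => absurd h h5.1, fun h => absurd h h5.2⟩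
        · rcases h5 with h5 | h5
          · exact Or.inl h5.2.2
          · rw [ax.dj _ _ (Or.inl h5.1), ax.dj _ _ (Or.inl h5.2)]; exact Or.inl h1
        · rcases h5 with h5 | h5
          · rw [ax.ds x c (ax.sm _ _ h5.1), ax.ds x' c' (ax.sm _ _ h5.2.1)]; exact Or.inl h5.2.2
          · right
            exact ⟨ax.dj _ _ (Or.inl fun h6 => h5.1 (ax.sm _ _ h6)),
              ax.dj _ _ (Or.inl fun h6 => h5.2 (ax.sm _ _ h6))⟩
      intro c c' h1
      by_cases h2 : E c x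
      · have h2' : E c' x' := ax.tr _ _ _ ((hR₁.eq _ _ _ _ h1 ra).1
          (ax.tr _ _ _ h2 (ax.sm _ _ ea))) ea'
        by_cases h3 : c = a
        · have h4 : c' = a' := (pi_inj hR₁ h1 ra).1 h3
          subst h3 h4
          refine ⟨na, na', oa, Or.inl ⟨ea, ea', ?_⟩⟩
          rw [da, da']; exact hyy
        · have h4 : c' ≠ a' := fun h4 => h3 ((pi_inj hR₁ h1 ra).2 h4)
          have hcx : c ≠ x := fun h5 => hxA (by rw [← h5]; exact oldA c c' h1 h2)
          have hD := hR₁.dd _ _ _ _ h1 ra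
          by_cases h5 : d c a = y
          · obtain ⟨g1, g2, g3, g4⟩ := hc c c' h1 h2 h3 h5
            refine ⟨g1, g2, g3, Or.inl ⟨h2, h2', ?_⟩⟩
            obtain ⟨_, _, _, _, n5⟩ := near M E d ax x a c ea h2 na hcx (Ne.symm h3)
            rw [n5 (by rw [da]; exact hmn' c c' h1 h2), h5, da, max_self, g4]
            exact hyy
          · have h5' : d c' a' ≠ y' := fun h6 => h5 ((pi_inj hR₁ hD hyy).2 h6)
            have hcx' : c' ≠ x' := by
              intro h6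
              rw [← h6] at da' ea'
              rw [ax.ds a' c' ea'] at da'
              exact h5' da'
            obtain ⟨_, n2, n3, n4, _⟩ := near M E d ax x a c ea h2 na hcx (Ne.symm h3)
            obtain ⟨_, m2, m3, m4, _⟩ := near M E d ax x' a' c' ea' h2' na' hcx' (Ne.symm h4)
            rw [da] at n2 n3 n4
            rw [da'] at m2 m3 m4
            refine ⟨hcx, hcx', ?_, Or.inl ⟨h2, h2', ?_⟩⟩
            · rcases lt_or_gt_of_ne h5 with h6 | h6
              · have h7 := (hR₁.lt _ _ _ _ hD hyy).1 h6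
                rw [n2 h6, m2 h7]; exact oa
              · have h7 := (hR₁.lt _ _ _ _ hyy hD).1 h6
                rw [n3 h6, m3 h7]; exact hR₁.lt _ _ _ _ h1 ra
            · rw [n4 h5, m4 h5']
              rcases lt_or_gt_of_ne h5 with h6 | h6
              · have h7 := (hR₁.lt _ _ _ _ hD hyy).1 h6
                rw [max_eq_right h6.le, max_eq_right h7.le]; exact hyy
              · have h7 := (hR₁.lt _ _ _ _ hyy hD).1 h6
                rw [max_eq_left h6.le, max_eq_left h7.le]; exact hD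
      · have h2a : ¬ E c a := fun h3 => h2 (ax.tr _ _ _ h3 ea)
        have h2a' : ¬ E c' a' := fun h3 => h2a ((hR₁.eq _ _ _ _ h1 ra).2 h3)
        have h2' : ¬ E c' x' := fun h3 => h2a' (ax.tr _ _ _ h3 (ax.sm _ _ ea'))
        have same : ∀ u v w : M, E v w → ¬ E u v → (u < v ↔ u < w) := by
          intro u v w g1 g2
          have g3 : ¬ E u w := fun g3 => g2 (ax.tr _ _ _ g3 (ax.sm _ _ g1))
          constructor
          · intro g4
            by_contra g5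
            have g6 : w < u := lt_of_le_of_ne (not_lt.1 g5) (fun g7 => g3 (by rw [g7]; exact ax.rf u))
            exact g3 (ax.sm _ _ (ax.cv _ _ _ g6 g4 (ax.sm _ _ g1)))
          · intro g4
            by_contra g5
            have g6 : v < u := lt_of_le_of_ne (not_lt.1 g5) (fun g7 => g2 (by rw [g7]; exact ax.rf u))
            exact g2 (ax.sm _ _ (ax.cv _ _ _ g6 g4 g1))
        refine ⟨fun h3 => h2 (by rw [h3]; exact ax.rf x), fun h3 => h2' (by rw [h3]; exact ax.rf x'),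
          ?_, Or.inr ⟨h2, h2'⟩⟩
        rw [← same c a x ea h2a, ← same c' a' x' ea' h2a']
        exact hR₁.lt _ _ _ _ h1 ra
    -- the points at distance `y`
    let N : Finset M := A.filter (fun c => E c x ∧ d c x = y)
    have hN : ∀ c, c ∈ N ↔ c ∈ A ∧ E c x ∧ d c x = y := fun c => by simp [N]
    have hNA : ∀ c c', R₁ c c' → E c x → d c x = y → c ∈ N := fun c c' h1 h2 h3 =>
      (hN c).2 ⟨oldA c c' h1 h2, h2, h3⟩
    have hNR : ∀ c ∈ N, ∃ c', R₁ c c' := by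
      intro c hc
      obtain ⟨c', hc'⟩ := (hA c).1 ((hN c).1 hc).1
      exact ⟨c', hs₁ _ _ hc'⟩
    -- the distance from `x` of the points at distance `y` of `a`
    have hcay : ∀ a ∈ N, ∀ c c', R₁ c c' → E c x → c ≠ a → d c a = y → c ∈ N := by
      intro a ha c c' h1 h2 h3 h4
      obtain ⟨h5, h6, h7⟩ := (hN a).1 ha
      have hcx : c ≠ x := fun h5 => hxA (by rw [← h5]; exact oldA c c' h1 h2)
      have hax : a ≠ x := fun h8 => hxA (by rw [← h8]; exact h5)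
      obtain ⟨_, _, _, _, n5⟩ := near M E d ax x a c h6 h2 hax hcx (Ne.symm h3)
      apply hNA c c' h1 h2
      rw [n5 (by rw [h7]; exact hmn' c c' h1 h2), h4, h7, max_self]
    have hya : ∀ a ∈ N, ∀ a', R₁ a a' → y' < a' ∧ ¬ E y' a' := by
      intro a ha a' h1
      obtain ⟨h5, h6, h7⟩ := (hN a).1 ha
      have h8 := cl a h6 y hyx.1 hyx.2
      exact ⟨(hR₁.lt _ _ _ _ hyy h1).1 h8.1, fun h9 => h8.2 ((hR₁.eq _ _ _ _ hyy h1).2 h9)⟩
    by_cases h1 : (N.filter (fun c => c < x)).Nonempty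
    · obtain ⟨a, ha, hmax⟩ : ∃ a ∈ N.filter (fun c => c < x), ∀ c ∈ N.filter (fun c => c < x), c ≤ a :=
        ⟨_, Finset.max'_mem _ h1, fun c hc => Finset.le_max' _ c hc⟩
      rw [Finset.mem_filter] at ha
      obtain ⟨haN, hax⟩ := ha
      obtain ⟨a', haa⟩ := hNR a haN
      obtain ⟨haA, eax, dax⟩ := (hN a).1 haN
      obtain ⟨h2, h3⟩ := hya a haN a' haa
      obtain ⟨x', g1, g2, g3, g4⟩ := ext.r2 B a' y' h2 h3
      refine ⟨a, a', x', haa, eax, hax.ne, dax, g1, g2.ne, g3, ⟨fun _ => g2, fun _ => hax⟩, ?_⟩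
      intro c c' h4 h5 h6 h7
      have hcN := hcay a haN c c' h4 h5 h6 h7
      have hcx : c ≠ x := fun h8 => hxA (by rw [← h8]; exact ((hN c).1 hcN).1)
      have eca : E c a := ax.tr _ _ _ h5 (ax.sm _ _ eax)
      have eca' : E c' a' := (hR₁.eq _ _ _ _ h4 haa).1 eca
      have h7' : d c' a' = y' := (pi_inj hR₁ (hR₁.dd _ _ _ _ h4 haa) hyy).1 h7
      rcases lt_or_gt_of_ne h6 with h8 | h8
      · have h8' := (hR₁.lt _ _ _ _ h4 haa).1 h8
        refine ⟨hcx, (h8'.trans g2).ne, ⟨fun _ => h8'.trans g2, fun _ => h8.trans hax⟩, ?_⟩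
        rw [ax.dm c' a' x' h8' g2 (ax.tr _ _ _ eca' g1), h7', g3, max_self]
      · have h8' := (hR₁.lt _ _ _ _ haa h4).1 h8
        have h9 : ¬ c < x := fun h9 => by
          have := hmax c (by rw [Finset.mem_filter]; exact ⟨hcN, h9⟩)
          exact absurd h8 (not_lt.2 this)
        obtain ⟨k1, k2⟩ := g4 c' ((hB c').2 ⟨c, h4⟩) (ax.sm _ _ eca') h8'
          (by rw [ax.ds a' c' (ax.sm _ _ eca')]; exact h7')
        refine ⟨hcx, k1.ne', ⟨fun h10 => absurd h10 h9, fun h10 => absurd h10 (not_lt.2 k1.le)⟩, ?_⟩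
        rw [ax.ds c' x' (ax.tr _ _ _ eca' g1)]; exact k2
    · have hge : ∀ c ∈ N, x < c := by
        intro c hc
        have h2 : ¬ c < x := fun h2 => h1 ⟨c, by rw [Finset.mem_filter]; exact ⟨hc, h2⟩⟩
        exact lt_of_le_of_ne (not_lt.1 h2) (fun h3 => hxA (by rw [h3]; exact ((hN c).1 hc).1))
      have hNne : N.Nonempty := ⟨a₀, (hN a₀).2 ⟨ha₀, hE, rfl⟩⟩
      obtain ⟨a, haN, hmin⟩ : ∃ a ∈ N, ∀ c ∈ N, a ≤ c :=
        ⟨_, Finset.min'_mem _ hNne, fun c hc => Finset.min'_le _ c hc⟩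
      have hax := hge a haN
      obtain ⟨a', haa⟩ := hNR a haN
      obtain ⟨haA, eax, dax⟩ := (hN a).1 haN
      obtain ⟨h2, h3⟩ := hya a haN a' haa
      obtain ⟨x', g1, g2, g3, g4⟩ := ext.l2 B a' y' h2 h3
      refine ⟨a, a', x', haa, eax, hax.ne', dax, g1, g2.ne', g3,
        ⟨fun h => absurd h (not_lt.2 hax.le), fun h => absurd h (not_lt.2 g2.le)⟩, ?_⟩
      intro c c' h4 h5 h6 h7
      have hcN := hcay a haN c c' h4 h5 h6 h7
      have hcx : c ≠ x := fun h8 => hxA (by rw [← h8]; exact ((hN c).1 hcN).1)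
      have eca : E c a := ax.tr _ _ _ h5 (ax.sm _ _ eax)
      have eca' : E c' a' := (hR₁.eq _ _ _ _ h4 haa).1 eca
      have h7' : d c' a' = y' := (pi_inj hR₁ (hR₁.dd _ _ _ _ h4 haa) hyy).1 h7
      have h8 : a < c := lt_of_le_of_ne (hmin c hcN) (Ne.symm h6)
      have h8' := (hR₁.lt _ _ _ _ haa h4).1 h8
      refine ⟨hcx, (g2.trans h8').ne', ⟨fun h => absurd h (not_lt.2 (hge c hcN).le),
        fun h => absurd h (not_lt.2 (g2.trans h8').le)⟩, ?_⟩
      rw [ax.ds c' x' (ax.tr _ _ _ eca' g1), ax.dm x' a' c' g2 h8' (ax.tr _ _ _ (ax.sm _ _ g1)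
        (ax.sm _ _ eca')), ax.ds x' a' (ax.sm _ _ g1), g3, ax.ds a' c' (ax.sm _ _ eca'), h7', max_self]

end

end Run7.h416.WO
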