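import Mathlib
import Pool.Agent.Run7.h520.WO.I

/-!
# MP_b29b59_lc, pieces `G1` and `G2`: the one-point extensions
-/

set_option autoImplicit false

namespace Run7.h416.WO
open Run7.h520.WO

/-- Ranks: the order of `S` below `n` is the order of natural numbers. -/
lemma rank {S : St} {n : ℕ} (h : Ok S n) : ∃ r : ℕ → ℕ,
    (∀ x < n, ∀ y < n, (S.lt x y ↔ r x < r y)) ∧ (∀ x < n, ∀ y < n, r x = r y → x = y) ∧
    (∀ x < n, ∀ y < n, ∀ z < n, (S.mx x y z ↔ r x = max (r y) (r z))) := by
  classical
  let r : ℕ → ℕ := fun x => ((Finset.range n).filter (fun z => S.lt z x)).card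
  have h1 : ∀ x < n, ∀ y < n, S.lt x y → r x < r y := by
    intro x hx y hy hxy
    apply Finset.card_lt_card
    rw [Finset.ssubset_iff_of_subset]
    · exact ⟨x, by simp [hx, hxy], by simp [h.irr x hx]⟩
    · intro z hz
      simp only [Finset.mem_filter, Finset.mem_range] at hz ⊢
      exact ⟨hz.1, h.tra z hz.1 x hx y hy hz.2 hxy⟩
  have h2 : ∀ x < n, ∀ y < n, (S.lt x y ↔ r x < r y) := by
    intro x hx y hy
    refine ⟨h1 x hx y hy, fun hr => ?_⟩
    rcases h.tot x hx y hy with h3 | h3 | h3
    · exact h3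
    · rw [h3] at hr; exact absurd hr (lt_irrefl _)
    · exact absurd (h1 y hy x hx h3) (by omega)
  have h3 : ∀ x < n, ∀ y < n, r x = r y → x = y := by
    intro x hx y hy hr
    rcases h.tot x hx y hy with h3 | h3 | h3
    · exact absurd (h1 x hx y hy h3) (by omega)
    · exact h3
    · exact absurd (h1 y hy x hx h3) (by omega)
  refine ⟨r, h2, h3, ?_⟩
  intro x hx y hy z hz
  unfold St.mx
  rw [h2 z hz y hy, h2 y hy z hz]
  have e1 : x = y ↔ r x = r y := ⟨fun h => by rw [h], h3 x hx y hy⟩
  have e2 : z = y ↔ r z = r y := ⟨fun h => by rw [h], h3 z hz y hy⟩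
  have e3 : x = z ↔ r x = r z := ⟨fun h => by rw [h], h3 x hx z hz⟩
  have e4 : y = z ↔ r y = r z := ⟨fun h => by rw [h], h3 y hy z hz⟩
  rw [e1, e2, e3, e4]
  omega

open Classical in
/-- The extension by the point `n`: `L` are the points to the left of it, `e` the points in its class,
`f` the distances. -/
noncomputable def ex (S : St) (n : ℕ) (L e : ℕ → Prop) (f : ℕ → ℕ) : St where
  lt i j := (i < n ∧ j < n ∧ S.lt i j) ∨ (i < n ∧ j = n ∧ L i) ∨ (i = n ∧ j < n ∧ ¬ L j)
  E i j := (i < n ∧ j < n ∧ S.E i j) ∨ (i < n ∧ j = n ∧ e i) ∨ (i = n ∧ j < n ∧ e j) ∨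
    (i = n ∧ j = n)
  d i j := if i < n then (if j < n then S.d i j else if e i then f i else i) else
    (if j < n then if e j then f j else i else i)

section
variable {S : St} {n : ℕ} {L e : ℕ → Prop} {f : ℕ → ℕ} {x y z : ℕ}

lemma lt1 (hx : x < n) (hy : y < n) : (ex S n L e f).lt x y ↔ S.lt x y := by
  simp [ex, hx, hy, hx.ne, hy.ne]
lemma lt2 (hx : x < n) : (ex S n L e f).lt x n ↔ L x := by simp [ex, hx, hx.ne]
lemma lt3 (hx : x < n) : (ex S n L e f).lt n x ↔ ¬ L x := by simp [ex, hx, hx.ne]
lemma lt4 : (ex S n L e f).lt n n ↔ False := by simp [ex]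
lemma E1 (hx : x < n) (hy : y < n) : (ex S n L e f).E x y ↔ S.E x y := by
  simp [ex, hx, hy, hx.ne, hy.ne]
lemma E2 (hx : x < n) : (ex S n L e f).E x n ↔ e x := by simp [ex, hx, hx.ne]
lemma E3 (hx : x < n) : (ex S n L e f).E n x ↔ e x := by simp [ex, hx, hx.ne]
lemma E4 : (ex S n L e f).E n n ↔ True := by simp [ex]
lemma d1 (hx : x < n) (hy : y < n) : (ex S n L e f).d x y = S.d x y := by simp [ex, hx, hy]
lemma d2 (hx : x < n) (h : e x) : (ex S n L e f).d x n = f x := by simp [ex, hx, h]
lemma d3 (hx : x < n) (h : e x) : (ex S n L e f).d n x = f x := by simp [ex, hx, h]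
lemma d2' (hx : x < n) (h : ¬ e x) : (ex S n L e f).d x n = x := by simp [ex, hx, h]
lemma d3' (hx : x < n) (h : ¬ e x) : (ex S n L e f).d n x = n := by simp [ex, hx, h]
lemma d4 : (ex S n L e f).d n n = n := by simp [ex]

lemma mx1 (hx : x < n) (hy : y < n) (hz : z < n) :
    (ex S n L e f).mx x y z ↔ S.mx x y z := by
  unfold St.mx
  rw [lt1 hz hy, lt1 hy hz]
end

/-- The conditions for the extension. -/
structure Co (S : St) (n : ℕ) (L e : ℕ → Prop) (f : ℕ → ℕ) : Prop where
  dc : ∀ x < n, ∀ y < n, S.lt x y → L y → L x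
  ec : ∀ x < n, ∀ y < n, e x → (e y ↔ S.E x y)
  c1 : ∀ x < n, ∀ y < n, S.lt x y → L y → e x → e y
  c2 : ∀ x < n, ∀ y < n, S.lt x y → ¬ L x → e y → e x
  c3 : ∀ x < n, ∀ y < n, L x → ¬ L y → S.E x y → e x
  fn : ∀ x < n, e x → f x < n
  l1 : ∀ x < n, e x → S.lt (f x) x
  l2 : ∀ x < n, e x → ¬ S.E (f x) x
  l3 : ∀ x < n, e x → L (f x)
  l4 : ∀ x < n, e x → ¬ e (f x)
  m1 : ∀ x < n, ∀ y < n, S.lt x y → L y → e x → e y → S.mx (f x) (S.d x y) (f y)
  m2 : ∀ x < n, ∀ y < n, L x → ¬ L y → e x → e y → S.mx (S.d x y) (f x) (f y)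
  m3 : ∀ x < n, ∀ y < n, S.lt x y → ¬ L x → e x → e y → S.mx (f y) (f x) (S.d x y)

lemma lts {x n : ℕ} (h : x < n + 1) : x < n ∨ x = n := by omega

lemma ok_ex {S : St} {n : ℕ} {L e : ℕ → Prop} {f : ℕ → ℕ} (h : Ok S n) (k : Co S n L e f) :
    Ok (ex S n L e f) (n + 1) := by
  refine ⟨?_, ?_, ?_, ?_, ?_, ?_, ?_, ?_, ?_, ?_, ?_, ?_⟩
  · intro x hx
    rcases lts hx with hx | rfl
    · rw [lt1 hx hx]; exact h.irr x hx
    · rw [lt4]; exact id
  · intro x hx y hy z hz
    rcases lts hx with hx | rfl <;> rcases lts hy with hy | rfl <;> rcases lts hz with hz | rfl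
    · rw [lt1 hx hy, lt1 hy hz, lt1 hx hz]; exact h.tra x hx y hy z hz
    · rw [lt1 hx hy, lt2 hy, lt2 hx]; exact k.dc x hx y hy
    · rw [lt2 hx, lt3 hz, lt1 hx hz]
      intro h1 h2
      rcases h.tot x hx z hz with h3 | h3 | h3
      · exact h3
      · rw [h3] at h1; exact absurd h1 h2
      · exact absurd (k.dc z hz x hx h3 h1) h2
    · rw [lt4]; intro _ h2; exact h2.elim
    · rw [lt3 hy, lt1 hy hz, lt3 hz]
      intro h1 h2 h3; exact h1 (k.dc y hy z hz h2 h3)
    · rw [lt3 hy, lt2 hy]; intro h1 h2; exact absurd h2 h1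
    · rw [lt4]; intro h1; exact h1.elim
    · rw [lt4]; intro h1; exact h1.elim
  · intro x hx y hy
    rcases lts hx with hx | rfl <;> rcases lts hy with hy | rfl
    · rw [lt1 hx hy, lt1 hy hx]; exact h.tot x hx y hy
    · rw [lt2 hx, lt3 hx]; by_cases h1 : L x
      · exact Or.inl h1
      · exact Or.inr (Or.inr h1)
    · rw [lt2 hy, lt3 hy]; by_cases h1 : L y
      · exact Or.inr (Or.inr h1)
      · exact Or.inl h1
    · exact Or.inr (Or.inl rfl)
  · intro x hx
    rcases lts hx with hx | rfl
    · rw [E1 hx hx]; exact h.rf x hx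
    · rw [E4]; trivial
  · intro x hx y hy
    rcases lts hx with hx | rfl <;> rcases lts hy with hy | rfl
    · rw [E1 hx hy, E1 hy hx]; exact h.sm x hx y hy
    · rw [E2 hx, E3 hx]; exact id
    · rw [E2 hy, E3 hy]; exact id
    · exact id
  · intro x hx y hy z hz
    rcases lts hx with hx | rfl <;> rcases lts hy with hy | rfl <;> rcases lts hz with hz | rfl
    · rw [E1 hx hy, E1 hy hz, E1 hx hz]; exact h.tr x hx y hy z hz
    · rw [E1 hx hy, E2 hy, E2 hx]; intro h1 h2; exact (k.ec y hy x hx h2).2 (h.sm _ hx _ hy h1)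
    · rw [E2 hx, E3 hz, E1 hx hz]; intro h1 h2; exact (k.ec x hx z hz h1).1 h2
    · rw [E2 hx]; intro h1 _; exact h1
    · rw [E3 hy, E1 hy hz, E3 hz]; intro h1 h2; exact (k.ec y hy z hz h1).2 h2
    · rw [E4]; intros; trivial
    · rw [E3 hz]; intro _ h1; exact h1
    · rw [E4]; intros; trivial
  · intro x hx y hy z hz
    rcases lts hx with hx | rfl <;> rcases lts hy with hy | rfl <;> rcases lts hz with hz | rfl
    · rw [lt1 hx hy, lt1 hy hz, E1 hx hz, E1 hx hy]; exact h.cv x hx y hy z hz
    · rw [lt1 hx hy, lt2 hy, E2 hx, E1 hx hy]; intro h1 h2 h3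
      exact (k.ec x hx y hy h3).1 (k.c1 x hx y hy h1 h2 h3)
    · rw [lt2 hx, lt3 hz, E1 hx hz, E2 hx]; intro h1 h2 h3
      exact k.c3 x hx z hz h1 h2 h3
    · rw [lt4]; intro _ h1; exact h1.elim
    · rw [lt3 hy, lt1 hy hz, E3 hy, E3 hz]; intro h1 h2 h3
      exact k.c2 y hy z hz h2 h1 h3
    · rw [lt3 hy, lt2 hy]; intro h1 h2; exact absurd h2 h1
    · rw [lt4]; intro h1; exact h1.elim
    · rw [lt4]; intro h1; exact h1.elim
  · intro x hx y hy
    rcases lts hx with hx | rfl <;> rcases lts hy with hy | rfl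
    · rw [d1 hx hy]; exact lt_trans (h.dn x hx y hy) (Nat.lt_succ_self n)
    · by_cases h1 : e x
      · rw [d2 hx h1]; exact lt_trans (k.fn x hx h1) (Nat.lt_succ_self _)
      · rw [d2' hx h1]; omega
    · by_cases h1 : e y
      · rw [d3 hy h1]; exact lt_trans (k.fn y hy h1) (Nat.lt_succ_self _)
      · rw [d3' hy h1]; omega
    · rw [d4]; omega
  · intro x hx y hy
    rcases lts hx with hx | rfl <;> rcases lts hy with hy | rfl
    · rw [d1 hx hy, d1 hy hx, E1 hx hy]; exact h.ds x hx y hy
    · rw [E2 hx]; intro h1; rw [d2 hx h1, d3 hx h1]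
    · rw [E3 hy]; intro h1; rw [d2 hy h1, d3 hy h1]
    · intro _; rfl
  · intro x hx y hy
    rcases lts hx with hx | rfl <;> rcases lts hy with hy | rfl
    · rw [E1 hx hy, d1 hx hy, lt1 (h.dn x hx y hy) hx, E1 (h.dn x hx y hy) hx]
      exact h.dl x hx y hy
    · rw [E2 hx]; intro h1 _; rw [d2 hx h1, lt1 (k.fn x hx h1) hx, E1 (k.fn x hx h1) hx]
      exact ⟨k.l1 x hx h1, k.l2 x hx h1⟩
    · rw [E3 hy]; intro h1 _; rw [d3 hy h1, lt2 (k.fn y hy h1), E2 (k.fn y hy h1)]
      exact ⟨k.l3 y hy h1, k.l4 y hy h1⟩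
    · intro _ h1; exact absurd rfl h1
  · intro x hx y hy z hz
    rcases lts hx with hx | rfl <;> rcases lts hy with hy | rfl <;> rcases lts hz with hz | rfl
    · rw [lt1 hx hy, lt1 hy hz, E1 hx hz, d1 hx hz, d1 hx hy, d1 hy hz,
        mx1 (h.dn x hx z hz) (h.dn x hx y hy) (h.dn y hy z hz)]
      exact h.dm x hx y hy z hz
    · rw [lt1 hx hy, lt2 hy, E2 hx]; intro h1 h2 h3
      have h4 := k.c1 x hx y hy h1 h2 h3
      rw [d2 hx h3, d1 hx hy, d2 hy h4, mx1 (k.fn x hx h3) (h.dn x hx y hy) (k.fn y hy h4)]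
      exact k.m1 x hx y hy h1 h2 h3 h4
    · rw [lt2 hx, lt3 hz, E1 hx hz]; intro h1 h2 h3
      have h4 := k.c3 x hx z hz h1 h2 h3
      have h5 := (k.ec x hx z hz h4).2 h3
      rw [d2 hx h4, d1 hx hz, d3 hz h5, mx1 (h.dn x hx z hz) (k.fn x hx h4) (k.fn z hz h5)]
      exact k.m2 x hx z hz h1 h2 h4 h5
    · rw [lt4]; intro _ h1; exact h1.elim
    · rw [lt3 hy, lt1 hy hz, E3 hz]; intro h1 h2 h3
      have h4 := k.c2 y hy z hz h2 h1 h3
      rw [d3 hz h3, d3 hy h4, d1 hy hz, mx1 (k.fn z hz h3) (k.fn y hy h4) (h.dn y hy z hz)]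
      exact k.m3 y hy z hz h2 h1 h4 h3
    · rw [lt3 hy, lt2 hy]; intro h1 h2; exact absurd h2 h1
    · rw [lt4]; intro h1; exact h1.elim
    · rw [lt4]; intro h1; exact h1.elim
  · intro x hx y hy
    rcases lts hx with hx | rfl <;> rcases lts hy with hy | rfl
    · rw [E1 hx hy, d1 hx hy]; exact h.dj x hx y hy
    · rw [E2 hx]; intro h1
      rcases h1 with h1 | h1
      · exact d2' hx h1
      · exact absurd h1 hx.ne
    · rw [E3 hy]; intro h1
      rcases h1 with h1 | h1
      · exact d3' hy h1
      · exact absurd h1.symm hy.ne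
    · intro _; exact d4

lemma agr_ex {S : St} {n : ℕ} {L e : ℕ → Prop} {f : ℕ → ℕ} : Agr S (ex S n L e f) n :=
  fun _ hx _ hy => ⟨lt1 hx hy, E1 hx hy, d1 hx hy⟩

/-- Piece `G1`. -/
theorem g1 : S_G1 := by
  intro S n h a ha
  have tot : ∀ x < n, ∀ y < n, ¬ S.lt x y → x ≠ y → S.lt y x := by
    intro x hx y hy h1 h2
    rcases h.tot x hx y hy with h3 | h3 | h3
    · exact absurd h3 h1
    · exact absurd h3 h2
    · exact h3
  have hra := h.rf a ha
  constructor
  · refine ⟨ex S n (fun i => S.lt i a ∨ S.E i a) (fun _ => False) (fun _ => 0), ok_ex h ?_, agr_ex,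
      ?_, ?_⟩
    · refine ⟨?_, ?_, ?_, ?_, ?_, ?_, ?_, ?_, ?_, ?_, ?_, ?_, ?_⟩
      · intro x hx y hy h1 h2
        rcases h2 with h2 | h2
        · exact Or.inl (h.tra x hx y hy a ha h1 h2)
        · by_cases h3 : S.lt x a
          · exact Or.inl h3
          · by_cases h4 : x = a
            · right; rw [h4]; exact h.rf a ha
            · right
              exact h.sm a ha x hx (h.cv a ha x hx y hy (tot x hx a ha h3 h4) h1 (h.sm y hy a ha h2))
      · intro x hx y hy h1; exact h1.elim
      · intro x hx y hy _ _ h1; exact h1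
      · intro x hx y hy _ _ h1; exact h1
      · intro x hx y hy h1 h2 h3
        rcases h1 with h1 | h1
        · have h5 : y ≠ a := fun h6 => h2 (Or.inr (by rw [h6]; exact hra))
          have h6 := tot y hy a ha (fun h6 => h2 (Or.inl h6)) h5
          have h7 := h.cv x hx a ha y hy h1 h6 h3
          exact h2 (Or.inr (h.tr y hy x hx a ha (h.sm x hx y hy h3) h7))
        · exact h2 (Or.inr (h.tr y hy x hx a ha (h.sm x hx y hy h3) h1))
      · intro x _ h1; exact h1.elim
      · intro x _ h1; exact h1.elim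
      · intro x _ h1; exact h1.elim
      · intro x _ h1; exact h1.elim
      · intro x _ h1; exact h1.elim
      · intro x _ y _ _ _ h1; exact h1.elim
      · intro x _ y _ _ _ h1; exact h1.elim
      · intro x _ y _ _ _ h1; exact h1.elim
    · rw [lt2 ha]; exact Or.inr (h.rf a ha)
    · intro c hc
      rw [E2 hc, lt3 hc]
      refine ⟨id, fun h1 h2 h3 => ?_⟩
      rcases h3 with h3 | h3
      · exact h.irr a ha (h.tra a ha c hc a ha h1 h3)
      · exact h2 (h.sm c hc a ha h3)
  · refine ⟨ex S n (fun i => S.lt i a ∧ ¬ S.E i a) (fun _ => False) (fun _ => 0), ok_ex h ?_, agr_ex,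
      ?_, ?_⟩
    · refine ⟨?_, ?_, ?_, ?_, ?_, ?_, ?_, ?_, ?_, ?_, ?_, ?_, ?_⟩
      · intro x hx y hy h1 h2
        refine ⟨h.tra x hx y hy a ha h1 h2.1, fun h3 => h2.2 ?_⟩
        exact h.tr y hy x hx a ha (h.sm x hx y hy (h.cv x hx y hy a ha h1 h2.1 h3)) h3
      · intro x hx y hy h1; exact h1.elim
      · intro x hx y hy _ _ h1; exact h1
      · intro x hx y hy _ _ h1; exact h1
      · intro x hx y hy h1 h2 h3
        have h4 : ¬ S.E y a := fun h4 => h1.2 (h.tr x hx y hy a ha h3 h4)
        have h5 : y ≠ a := fun h6 => h4 (by rw [h6]; exact hra)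
        have h6 := tot y hy a ha (fun h6 => h2 ⟨h6, h4⟩) h5
        exact h1.2 (h.cv x hx a ha y hy h1.1 h6 h3)
      · intro x _ h1; exact h1.elim
      · intro x _ h1; exact h1.elim
      · intro x _ h1; exact h1.elim
      · intro x _ h1; exact h1.elim
      · intro x _ h1; exact h1.elim
      · intro x _ y _ _ _ h1; exact h1.elim
      · intro x _ y _ _ _ h1; exact h1.elim
      · intro x _ y _ _ _ h1; exact h1.elim
    · rw [lt3 ha]; exact fun h1 => h1.2 hra
    · intro c hc
      rw [E2 hc, lt2 hc]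
      exact ⟨id, fun h1 h2 => ⟨h1, fun h3 => h2 (h.sm c hc a ha h3)⟩⟩

lemma key {S : St} {n : ℕ} (h : Ok S n) : ∀ x < n, ∀ x' < n, ∀ u < n, S.E x x' → S.lt u x →
    ¬ S.E u x → S.lt u x' ∧ ¬ S.E u x' := by
  intro x hx x' hx' u hu h1 h2 h3
  have h4 : ¬ S.E u x' := fun h4 => h3 (h.tr u hu x' hx' x hx h4 (h.sm x hx x' hx' h1))
  refine ⟨?_, h4⟩
  rcases h.tot u hu x' hx' with h5 | h5 | h5
  · exact h5
  · exact absurd (by rw [h5]; exact h.rf x' hx') h4
  · exact absurd (h.sm x' hx' u hu (h.cv x' hx' u hu x hx h5 h2 (h.sm x hx x' hx' h1))) h4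

/-- Piece `G2`. -/
theorem g2 : S_G2 := by
  classical
  intro S n h a ha y hy hya hye
  obtain ⟨r, hr, hi, hm⟩ := rank h
  have hra := h.rf a ha
  have cvr : ∀ x < n, ∀ u < n, ∀ z < n, r x < r u → r u < r z → S.E x z → S.E x u := by
    intro x hx u hu z hz h1 h2 h3
    exact h.cv x hx u hu z hz ((hr x hx u hu).2 h1) ((hr u hu z hz).2 h2) h3
  have dmr : ∀ x < n, ∀ u < n, ∀ z < n, r x < r u → r u < r z → S.E x z →
      r (S.d x z) = max (r (S.d x u)) (r (S.d u z)) := by
    intro x hx u hu z hz h1 h2 h3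
    exact (hm _ (h.dn x hx z hz) _ (h.dn x hx u hu) _ (h.dn u hu z hz)).1
      (h.dm x hx u hu z hz ((hr x hx u hu).2 h1) ((hr u hu z hz).2 h2) h3)
  have sm : ∀ x < n, ∀ u < n, S.E x u → S.E u x := fun x hx u hu => h.sm x hx u hu
  -- the distances to the new point
  let f : ℕ → ℕ := fun i => if i = a then y else if r (S.d i a) < r y then y else S.d i a
  have fn : ∀ x < n, f x < n := by
    intro x hx
    simp only [f]
    split_ifs
    · exact hy
    · exact hy
    · exact h.dn x hx a ha
  have fa : f a = y := by simp [f]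
  have fr : ∀ x < n, x ≠ a → r (f x) = max (r y) (r (S.d x a)) := by
    intro x hx h1
    simp only [f, if_neg h1]
    split_ifs with h2
    · omega
    · omega
  have fy : ∀ x < n, f x = y ∨ (x ≠ a ∧ f x = S.d x a) := by
    intro x hx
    simp only [f]
    split_ifs with h2 h3
    · exact Or.inl rfl
    · exact Or.inl rfl
    · exact Or.inr ⟨h2, rfl⟩
  have fl : ∀ x < n, S.E x a → S.lt (f x) x ∧ ¬ S.E (f x) x := by
    intro x hx h1
    rcases fy x hx with h2 | ⟨h2, h3⟩
    · rw [h2]; exact key h a ha x hx y hy (h.sm x hx a ha h1) hya hye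
    · rw [h3]; exact h.dl x hx a ha h1 h2
  have fl' : ∀ x < n, S.E x a → S.lt (f x) a ∧ ¬ S.E (f x) a := by
    intro x hx h1
    exact key h x hx a ha (f x) (fn x hx) h1 (fl x hx h1).1 (fl x hx h1).2
  have rya : r y < r a := (hr y hy a ha).1 hya
  constructor
  · let L : ℕ → Prop := fun i => r i ≤ r a ∨ (S.E i a ∧ r (S.d i a) < r y)
    have hL : ∀ i, L i ↔ (r i ≤ r a ∨ (S.E i a ∧ r (S.d i a) < r y)) := fun i => Iff.rfl
    have ra : ∀ x < n, ∀ z < n, r x = r z → x = z := hi
    have dc : ∀ x < n, ∀ z < n, S.lt x z → L z → L x := by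
      intro x hx z hz h1 h2
      rw [hr x hx z hz] at h1
      rw [hL] at h2 ⊢
      rcases h2 with h2 | ⟨h2, h3⟩
      · left; omega
      · by_cases h4 : r x ≤ r a
        · exact Or.inl h4
        · right
          have h5 := cvr a ha x hx z hz (by omega) h1 (sm z hz a ha h2)
          have h6 := dmr a ha x hx z hz (by omega) h1 (sm z hz a ha h2)
          rw [h.ds a ha z hz (sm z hz a ha h2), h.ds a ha x hx h5] at h6
          exact ⟨sm a ha x hx h5, by omega⟩
    have co : Co S n L (fun i => S.E i a) f := by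
      refine ⟨dc, ?_, ?_, ?_, ?_, ?_, ?_, ?_, ?_, ?_, ?_, ?_, ?_⟩
      · intro x hx z hz h1
        exact ⟨fun h2 => h.tr x hx a ha z hz h1 (sm z hz a ha h2),
          fun h2 => h.tr z hz x hx a ha (sm x hx z hz h2) h1⟩
      · intro x hx z hz h1 h2 h3
        rw [hr x hx z hz] at h1
        rw [hL] at h2
        rcases h2 with h2 | ⟨h2, _⟩
        · rcases Nat.lt_or_eq_of_le h2 with h4 | h4
          · have h5 := cvr x hx z hz a ha h1 h4 h3
            exact h.tr z hz x hx a ha (sm x hx z hz h5) h3
          · rw [ra z hz a ha h4]; exact hra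
        · exact h2
      · intro x hx z hz h1 h2 h3
        rw [hr x hx z hz] at h1
        rw [hL] at h2
        exact sm a ha x hx (cvr a ha x hx z hz (by omega) h1 (sm z hz a ha h3))
      · intro x hx z hz h1 h2 h3
        rw [hL] at h1 h2
        rcases h1 with h1 | ⟨h1, _⟩
        · rcases Nat.lt_or_eq_of_le h1 with h4 | h4
          · exact cvr x hx a ha z hz h4 (by omega) h3
          · rw [ra x hx a ha h4]; exact hra
        · exact h1
      · intro x hx _; exact fn x hx
      · intro x hx h1; exact (fl x hx h1).1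
      · intro x hx h1; exact (fl x hx h1).2
      · intro x hx h1
        have := (hr _ (fn x hx) a ha).1 (fl' x hx h1).1
        rw [hL]; left; omega
      · intro x hx h1; exact (fl' x hx h1).2
      · -- m1
        intro x hx w hw h1 h2 h3 h4
        rw [hr x hx w hw] at h1
        rw [hL] at h2
        rw [hm _ (fn x hx) _ (h.dn x hx w hw) _ (fn w hw)]
        by_cases hwa : w = a
        · subst hwa
          have hxa : x ≠ w := fun h5 => by rw [h5] at h1; omega
          rw [fa, fr x hx hxa]
          omega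
        · have e1 := fr w hw hwa
          rcases lt_or_ge (r w) (r a) with h5 | h5
          · have hxa : x ≠ a := fun h6 => by rw [h6] at h1; omega
            have e2 := fr x hx hxa
            have e3 := dmr x hx w hw a ha h1 h5 h3
            omega
          · have h6 : r w ≠ r a := fun h6 => hwa (ra w hw a ha h6)
            have h7 : r (S.d w a) < r y := by
              rcases h2 with h2 | h2
              · omega
              · exact h2.2
            have e0 := h.ds a ha w hw (sm w hw a ha h4)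
            by_cases hxa : x = a
            · subst hxa
              rw [fa, e0]; omega
            · have e2 := fr x hx hxa
              have h8 : r x ≠ r a := fun h6 => hxa (ra x hx a ha h6)
              rcases lt_or_ge (r x) (r a) with h9 | h9
              · have e3 := dmr x hx a ha w hw h9 (by omega) (h.tr x hx a ha w hw h3 (sm w hw a ha h4))
                rw [e0] at e3
                omega
              · have e3 := dmr a ha x hx w hw (by omega) h1 (sm w hw a ha h4)
                rw [e0, h.ds a ha x hx (sm x hx a ha h3)] at e3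
                omega
      · -- m2
        intro x hx z hz h1 h2 h3 h4
        have hxz : r x < r z := by
          rcases lt_or_ge (r x) (r z) with h5 | h5
          · exact h5
          · rcases Nat.lt_or_eq_of_le h5 with h6 | h6
            · exact absurd (dc z hz x hx ((hr z hz x hx).2 h6) h1) h2
            · rw [ra z hz x hx h6] at h2; exact absurd h1 h2
        rw [hL] at h1 h2
        rw [hm _ (h.dn x hx z hz) _ (fn x hx) _ (fn z hz)]
        push Not at h2
        obtain ⟨h5, h6⟩ := h2
        have h7 := h6 h4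
        have hza : z ≠ a := fun h8 => by rw [h8] at h5; omega
        have e1 := fr z hz hza
        have e0 := h.ds a ha z hz (sm z hz a ha h4)
        by_cases hxa : x = a
        · subst hxa
          rw [fa, e0]; omega
        · have e2 := fr x hx hxa
          have h8 : r x ≠ r a := fun h6 => hxa (ra x hx a ha h6)
          rcases lt_or_ge (r x) (r a) with h9 | h9
          · have e3 := dmr x hx a ha z hz h9 (by omega) (h.tr x hx a ha z hz h3 (sm z hz a ha h4))
            rw [e0] at e3
            omega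
          · have e3 := dmr a ha x hx z hz (by omega) hxz (sm z hz a ha h4)
            rw [e0, h.ds a ha x hx (sm x hx a ha h3)] at e3
            have h10 : r (S.d x a) < r y := by
              rcases h1 with h1 | h1
              · omega
              · exact h1.2
            omega
      · -- m3
        intro w hw z hz h1 h2 h3 h4
        rw [hr w hw z hz] at h1
        rw [hL] at h2
        rw [hm _ (fn z hz) _ (fn w hw) _ (h.dn w hw z hz)]
        push Not at h2
        obtain ⟨h5, h6⟩ := h2
        have h7 := h6 h3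
        have hza : z ≠ a := fun h8 => by rw [h8] at h1; omega
        have hwa : w ≠ a := fun h8 => by rw [h8] at h5; omega
        have e1 := fr z hz hza
        have e2 := fr w hw hwa
        have e3 := dmr a ha w hw z hz h5 h1 (sm z hz a ha h4)
        rw [h.ds a ha z hz (sm z hz a ha h4), h.ds a ha w hw (sm w hw a ha h3)] at e3
        omega
    refine ⟨ex S n L (fun i => S.E i a) f, ok_ex h co, agr_ex, ?_, ?_, ?_, ?_⟩
    · rw [E2 ha]; exact hra
    · rw [lt2 ha, hL]; left; exact le_rfl
    · exact (d2 (e := fun i => S.E i a) ha hra).trans fa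
    · intro c hc h1 h2 h3
      have h4 := sm a ha c hc h1
      rw [lt3 hc, d3 (e := fun i => S.E i a) hc h4, hL]
      rw [hr a ha c hc] at h2
      have h5 : c ≠ a := fun h8 => by rw [h8] at h2; omega
      have h6 : S.d c a = y := by rw [← h.ds a ha c hc h1]; exact h3
      constructor
      · push Not
        refine ⟨by omega, fun _ => by rw [h6]⟩
      · apply hi _ (fn c hc) _ hy
        rw [fr c hc h5, h6]
        omega
  · let L : ℕ → Prop := fun i => r i < r a ∧ (S.E i a → r y ≤ r (S.d i a))
    have hL : ∀ i, L i ↔ (r i < r a ∧ (S.E i a → r y ≤ r (S.d i a))) := fun i => Iff.rfl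
    have ra : ∀ x < n, ∀ z < n, r x = r z → x = z := hi
    have nL : ∀ i, ¬ L i ↔ (r a ≤ r i ∨ (S.E i a ∧ r (S.d i a) < r y)) := by
      intro i
      rw [hL]
      constructor
      · intro h1
        by_contra h2
        push Not at h2
        exact h1 ⟨h2.1, h2.2⟩
      · rintro h1 ⟨h2, h3⟩
        rcases h1 with h1 | ⟨h4, h5⟩
        · omega
        · have := h3 h4; omega
    have dc : ∀ x < n, ∀ z < n, S.lt x z → L z → L x := by
      intro x hx z hz h1 h2
      rw [hr x hx z hz] at h1
      by_contra h3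
      rw [nL] at h3
      rw [hL] at h2
      rcases h3 with h3 | ⟨h3, h4⟩
      · omega
      · have h5 := cvr x hx z hz a ha h1 h2.1 h3
        have h6 := dmr x hx z hz a ha h1 h2.1 h3
        have h7 := h2.2 (h.tr z hz x hx a ha (sm x hx z hz h5) h3)
        omega
    have co : Co S n L (fun i => S.E i a) f := by
      refine ⟨dc, ?_, ?_, ?_, ?_, ?_, ?_, ?_, ?_, ?_, ?_, ?_, ?_⟩
      · intro x hx z hz h1
        exact ⟨fun h2 => h.tr x hx a ha z hz h1 (sm z hz a ha h2),
          fun h2 => h.tr z hz x hx a ha (sm x hx z hz h2) h1⟩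
      · intro x hx z hz h1 h2 h3
        rw [hr x hx z hz] at h1
        rw [hL] at h2
        have h5 := cvr x hx z hz a ha h1 h2.1 h3
        exact h.tr z hz x hx a ha (sm x hx z hz h5) h3
      · intro x hx z hz h1 h2 h3
        rw [hr x hx z hz] at h1
        rw [nL] at h2
        rcases h2 with h2 | ⟨h2, _⟩
        · rcases Nat.lt_or_eq_of_le h2 with h4 | h4
          · exact sm a ha x hx (cvr a ha x hx z hz h4 h1 (sm z hz a ha h3))
          · rw [ra x hx a ha h4.symm]; exact hra
        · exact h2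
      · intro x hx z hz h1 h2 h3
        rw [hL] at h1
        rw [nL] at h2
        rcases h2 with h2 | ⟨h2, _⟩
        · rcases Nat.lt_or_eq_of_le h2 with h4 | h4
          · exact cvr x hx a ha z hz h1.1 h4 h3
          · rw [ra a ha z hz h4]; exact h3
        · exact h.tr x hx z hz a ha h3 h2
      · intro x hx _; exact fn x hx
      · intro x hx h1; exact (fl x hx h1).1
      · intro x hx h1; exact (fl x hx h1).2
      · intro x hx h1
        have := (hr _ (fn x hx) a ha).1 (fl' x hx h1).1
        rw [hL]; exact ⟨this, fun h2 => absurd h2 (fl' x hx h1).2⟩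
      · intro x hx h1; exact (fl' x hx h1).2
      · -- m1 : x < w < new
        intro x hx w hw h1 h2 h3 h4
        rw [hr x hx w hw] at h1
        rw [hL] at h2
        rw [hm _ (fn x hx) _ (h.dn x hx w hw) _ (fn w hw)]
        obtain ⟨h5, h6⟩ := h2
        have h7 := h6 h4
        have hwa : w ≠ a := fun h8 => by rw [h8] at h5; omega
        have hxa : x ≠ a := fun h8 => by rw [h8] at h1; omega
        have e1 := fr x hx hxa
        have e2 := fr w hw hwa
        have e3 := dmr x hx w hw a ha h1 h5 h3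
        omega
      · -- m2 : x < new < z
        intro x hx z hz h1 h2 h3 h4
        have hxz : r x < r z := by
          rcases lt_or_ge (r x) (r z) with h5 | h5
          · exact h5
          · rcases Nat.lt_or_eq_of_le h5 with h6 | h6
            · exact absurd (dc z hz x hx ((hr z hz x hx).2 h6) h1) h2
            · rw [ra z hz x hx h6] at h2; exact absurd h1 h2
        rw [hL] at h1
        rw [nL] at h2
        rw [hm _ (h.dn x hx z hz) _ (fn x hx) _ (fn z hz)]
        obtain ⟨h5, h6⟩ := h1
        have h7 := h6 h3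
        have hxa : x ≠ a := fun h8 => by rw [h8] at h5; omega
        have e1 := fr x hx hxa
        by_cases hza : z = a
        · subst hza
          rw [fa]; omega
        · have e2 := fr z hz hza
          have h8 : r z ≠ r a := fun h6 => hza (ra z hz a ha h6)
          rcases lt_or_ge (r z) (r a) with h9 | h9
          · have e3 := dmr x hx z hz a ha hxz h9 h3
            have h10 : r (S.d z a) < r y := by
              rcases h2 with h2 | h2
              · omega
              · exact h2.2
            omega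
          · have e3 := dmr x hx a ha z hz h5 (by omega) (h.tr x hx a ha z hz h3 (sm z hz a ha h4))
            rw [h.ds a ha z hz (sm z hz a ha h4)] at e3
            omega
      · -- m3 : new < w < z
        intro w hw z hz h1 h2 h3 h4
        rw [hr w hw z hz] at h1
        rw [nL] at h2
        rw [hm _ (fn z hz) _ (fn w hw) _ (h.dn w hw z hz)]
        by_cases hwa : w = a
        · subst hwa
          have hza : z ≠ w := fun h5 => by rw [h5] at h1; omega
          rw [fa, fr z hz hza, h.ds w hw z hz (sm z hz w ha h4)]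
        · have e1 := fr w hw hwa
          rcases lt_or_ge (r a) (r w) with h5 | h5
          · have hza : z ≠ a := fun h6 => by rw [h6] at h1; omega
            have e2 := fr z hz hza
            have e3 := dmr a ha w hw z hz h5 h1 (sm z hz a ha h4)
            rw [h.ds a ha z hz (sm z hz a ha h4), h.ds a ha w hw (sm w hw a ha h3)] at e3
            omega
          · have h6 : r w ≠ r a := fun h6 => hwa (ra w hw a ha h6)
            have h7 : r (S.d w a) < r y := by
              rcases h2 with h2 | h2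
              · omega
              · exact h2.2
            by_cases hza : z = a
            · subst hza
              rw [fa]; omega
            · have e2 := fr z hz hza
              have h8 : r z ≠ r a := fun h6 => hza (ra z hz a ha h6)
              rcases lt_or_ge (r z) (r a) with h9 | h9
              · have e3 := dmr w hw z hz a ha h1 h9 h3
                omega
              · have e3 := dmr w hw a ha z hz (by omega) (by omega)
                  (h.tr w hw a ha z hz h3 (sm z hz a ha h4))
                rw [h.ds a ha z hz (sm z hz a ha h4)] at e3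
                omega
    refine ⟨ex S n L (fun i => S.E i a) f, ok_ex h co, agr_ex, ?_, ?_, ?_, ?_⟩
    · rw [E2 ha]; exact hra
    · rw [lt3 ha, nL]; left; exact le_rfl
    · exact (d2 (e := fun i => S.E i a) ha hra).trans fa
    · intro c hc h1 h2 h3
      have h4 := sm a ha c hc h1
      rw [lt2 hc, d3 (e := fun i => S.E i a) hc h4, hL]
      rw [hr c hc a ha] at h2
      have h5 : c ≠ a := fun h8 => by rw [h8] at h2; omega
      have h6 : S.d c a = y := by rw [← h.ds a ha c hc h1]; exact h3
      constructor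
      · exact ⟨h2, fun _ => by rw [h6]⟩
      · apply hi _ (fn c hc) _ hy
        rw [fr c hc h5, h6]
        omega

end Run7.h416.WO
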